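import Pool.Agent.H21.L.R_pool_sql_team_seeded_2aa45f1a.Q5.BP.Pack
import Pool.Agent.H21.L.R_pool_sql_team_seeded_2aa45f1a.Results.MP_8b7eba_nt.OneWindow

/-!
# The leading-term formula over `ℚ` from the original product, in exact mean square

Let `E : y² = x³ + a x + b` be an elliptic curve over `ℚ`, `a, b ∈ ℤ`, `F` the entire continuation of its
incomplete `L`-series (the Euler factors at the primes dividing `2Δ` are removed), `f` its newform, `N_p` the number
of affine points modulo `p`, and let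

`P(x) = ∏_{p ≤ x} (N_p + 1)/p`,  `P*(x) = P(x) exp (∑_{√x < p ≤ x} (a_p² - 2p)/(2p²))`

be the original product of Birch and Swinnerton-Dyer with the SHARP cut-off, and the same product with the second
order terms. For real `ρ` and `A > 0` put `δ*(x) = log (A P*(x) / (e^γ log x)^ρ)` and write `m_t` for the order of
vanishing of `F` at `1 + it`. It is shown, for every such curve and without any further hypothesis, that the following
are equivalent:

* `F` has no zeros with `Re s > 1` (by the functional equation: the Riemann hypothesis for `E`), `ρ = ord_{s=1} F`,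
  and `F^{(ρ)}(1)/ρ! = A`;
* `(log X)⁻¹ ∫_e^X (log x · δ*(x))² dx/x` is bounded for large `X`;
* the sum `V = ∑_{t ≠ 0} m_t²/t²` converges and `(log X)⁻¹ ∫_e^X (log x · δ*(x))² dx/x → V`.

In this case for every real `t` the means `(log X)⁻¹ ∫_e^X (log x · δ*(x)) x^(-it) dx/x` tend to `- i m_t / t` (to `0`
for `t = 0`). So with `ρ = rank E(ℚ)` and `A` the number predicted by the leading-term formula (times the Euler
factors removed): the rank and leading-term formulas and the Riemann hypothesis for `E` hold together if and only if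
the error term in Birch and Swinnerton-Dyer's formula `P*(x) ≈ (e^γ log x)^r / A` is `O(1/log x)` in square mean; its
mean square is then `∑ 1/t²` over the zeros `1 + it` (with the squares of the multiplicities), and the zeros
themselves are the frequencies of the error term. The same is proved for the original product, with
`δ(x) = log (A P(x) / (√2 (e^γ log x)^ρ))`, under the hypothesis
`log x · (∑_{√x < p ≤ x} (a_p² - 2p)/(2p²) + (log 2)/2) → 0`, the theorem of Rankin and Selberg with a zero-free region.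

Goldfeld (1982) proved that `P(x) ∼ C (log x)^ρ` implies the first statement; `MeanSquareLaw` of problem
`MP_3283e1_nt` (starting files) has the convergence of `∫ δ*(x)² dx/x` as a criterion. Here the exact size of the
error is determined. The proof is in `Pool.Agent.Q5.BP` (see `ExactMeanSquare` of problem `MP_9ab903_nt`).
-/

set_option autoImplicit false

namespace Pool.Agent.Results.MP_92892c_nt.ExactMeanSquareRational

open Pool.Agent.W263.BSD Filter Topology Classical MeasureTheory Set Complex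
open CongruenceSubgroup
open scoped MatrixGroups
open Pool.Agent.Results.MP_8b7eba_nt.OneWindow (coef IsNewformOf NoZeros)

/-- `F` has no zeros with `Re s > 1`, `ρ = ord_{s=1} F` and `F^{(ρ)}(1)/ρ! = A`. -/
def LeadingRH (F : ℂ → ℂ) (ρ A : ℝ) : Prop :=
  NoZeros F ∧ ∃ r : ℕ, ρ = r ∧ analyticOrderAt F 1 = r ∧
    iteratedDeriv r F 1 / (r.factorial : ℂ) = A

/-- `δ*(x) = log (A P*(x) / (e^γ log x)^ρ)`. -/
noncomputable def devStar (a b : ℤ) (ρ A x : ℝ) : ℝ :=
  Real.log (A * bsdStar a b x / (Real.exp Real.eulerMascheroniConstant * Real.log x) ^ ρ)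

/-- `δ(x) = log (A P(x) / (√2 (e^γ log x)^ρ))`. -/
noncomputable def dev (a b : ℤ) (ρ A x : ℝ) : ℝ :=
  Real.log (A * bsdProduct a b x / (√2 * (Real.exp Real.eulerMascheroniConstant * Real.log x) ^ ρ))

/-- `∑_{√x < p ≤ x} (a_p² - 2p)/(2p²)` over the good primes. -/
noncomputable def squares (a b : ℤ) (x : ℝ) : ℝ :=
  ∑ p ∈ (Finset.range (⌊x⌋₊ + 1)).filter (fun p => GoodPrime a b p ∧ √x < p),
    (((p : ℝ) - pointCount a b p) ^ 2 - 2 * p) / (2 * (p : ℝ) ^ 2)

/-- The order of vanishing of `F` at `1 + it`. -/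
noncomputable def mult (F : ℂ → ℂ) (t : ℝ) : ℕ := (analyticOrderAt F (1 + t * I)).toNat

/-- `(log X)⁻¹ ∫_e^X (log x · δ(x))² dx/x`. -/
noncomputable def meanSquare (δ : ℝ → ℝ) (X : ℝ) : ℝ :=
  (∫ x in Real.exp 1..X, (Real.log x * δ x) ^ 2 / x) / Real.log X

/-- `(log X)⁻¹ ∫_e^X (log x · δ(x)) x^(-it) dx/x`. -/
noncomputable def coefficient (δ : ℝ → ℝ) (t X : ℝ) : ℂ :=
  (∫ x in Real.exp 1..X, ((Real.log x * δ x : ℝ) : ℂ) * (x : ℂ) ^ (-(t * I)) / (x : ℂ)) /
    (Real.log X : ℂ)

/-- `∫_e^X (log x · δ(x))² dx/x ≤ B log X` for some `B` and all large `X`. -/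
def BoundedMeanSquare (δ : ℝ → ℝ) : Prop := ∃ B : ℝ, ∀ᶠ X : ℝ in atTop,
  ∫ x in Real.exp 1..X, (Real.log x * δ x) ^ 2 / x ≤ B * Real.log X

/-- `∑_t m_t²/t²` converges (the term with `t = 0` is `0`) and is the limit of the mean squares. -/
def SquareLaw (F : ℂ → ℂ) (δ : ℝ → ℝ) : Prop :=
  ∃ V : ℝ, HasSum (fun t : ℝ => ((mult F t : ℝ) / t) ^ 2) V ∧ Tendsto (meanSquare δ) atTop (𝓝 V)

/-- For every real `t` the means of `log x · δ(x) x^(-it)` tend to `-i m_t/t` (`0` for `t = 0`). -/
def ReadsZeros (F : ℂ → ℂ) (δ : ℝ → ℝ) : Prop :=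
  ∀ t : ℝ, Tendsto (coefficient δ t) atTop (𝓝 (-((mult F t : ℂ) * I / t)))

/-! ### translation -/

open Pool.Agent.TH270.MS (Mc BM DvR)
open Pool.Agent.TH270.MS.EQ (nQ alQ curve_mc growth_F star_close bm_star lim_iff)
open Pool.Agent.Q5.MS (Pv Sq)
open Pool.Agent.Q5.BP (BSq MSq FB pack packP bm_log bsq_iff sqm_iff cmean_of)
open Pool.Agent.Results.MP_8b7eba_nt.OneWindow (hecke pv_log)

theorem squares_eq (a b : ℤ) (x : ℝ) : squares a b x = Sq (nQ a b) (alQ a b) x := by
  refine Eq.trans ?_ (Pool.Agent.TH270.MS.EQ.corr_eq x).symm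
  unfold bsdStar
  rw [Real.log_mul (bsdProduct_pos x).ne' (Real.exp_pos _).ne', Real.log_exp,
    add_sub_cancel_left]
  rfl

theorem devStar_eq {a b : ℤ} {ρ A x : ℝ} (hA : 0 < A) (hx : Real.exp 1 ≤ x) :
    devStar a b ρ A x = Real.log A + Real.log (bsdStar a b x) -
      ρ * (Real.eulerMascheroniConstant + Real.log (Real.log x)) := by
  have hl : 0 < Real.log x := by linarith [Pool.Agent.TH270.MS.one_le_log hx]
  have h1 : 0 < Real.exp Real.eulerMascheroniConstant * Real.log x :=
    mul_pos (Real.exp_pos _) hl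
  have h2 := Real.rpow_pos_of_pos h1 ρ
  have h3 := bsdStar_pos (a := a) (b := b) x
  unfold devStar
  rw [Real.log_div (mul_pos hA h3).ne' h2.ne', Real.log_mul hA.ne' h3.ne', Real.log_rpow h1,
    Real.log_mul (Real.exp_pos _).ne' hl.ne', Real.log_exp]

theorem dev_eq {a b : ℤ} {ρ A x : ℝ} (hA : 0 < A) (hx : Real.exp 1 ≤ x) :
    dev a b ρ A x = Pool.Agent.Q5.BP.DvP (nQ a b) (alQ a b) ρ A (-(Real.log 2 / 2)) x := by
  have hl : 0 < Real.log x := by linarith [Pool.Agent.TH270.MS.one_le_log hx]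
  have h1 : 0 < Real.exp Real.eulerMascheroniConstant * Real.log x :=
    mul_pos (Real.exp_pos _) hl
  have h2 := Real.rpow_pos_of_pos h1 ρ
  have h3 := bsdProduct_pos (a := a) (b := b) x
  have h4 : (0 : ℝ) < √2 := by positivity
  unfold dev Pool.Agent.Q5.BP.DvP
  rw [Real.log_div (mul_pos hA h3).ne' (mul_pos h4 h2).ne', Real.log_mul hA.ne' h3.ne',
    Real.log_mul h4.ne' h2.ne', Real.log_rpow h1, Real.log_mul (Real.exp_pos _).ne' hl.ne',
    Real.log_exp, pv_log, Pool.Agent.TH270.MS.EQ.log_sqrt_two]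
  ring

theorem star_tendsto (a b : ℤ) {ρ A : ℝ} (hA : 0 < A) :
    Tendsto (fun x => Real.log x * -DvR (nQ a b) (alQ a b) ρ A x -
      Real.log x * devStar a b ρ A x) atTop (𝓝 0) := by
  obtain ⟨K, hK⟩ := star_close a b
  have h2 : Tendsto (fun x : ℝ => |K| * (Real.log x * x ^ (-(1 / 12 : ℝ)))) atTop (𝓝 0) := by
    have h3 := (isLittleO_log_rpow_atTop (r := 1 / 12) (by norm_num)).tendsto_div_nhds_zero
    have h4 := h3.const_mul |K|
    rw [mul_zero] at h4
    refine h4.congr' ?_
    filter_upwards [eventually_gt_atTop 0] with x hx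
    rw [Real.rpow_neg hx.le]
    ring
  refine squeeze_zero_norm' ?_ h2
  filter_upwards [eventually_ge_atTop (Real.exp 1)] with x hx
  have hl : 1 ≤ Real.log x := Pool.Agent.TH270.MS.one_le_log hx
  have hx0 : 0 < x := (Real.exp_pos 1).trans_le hx
  have h5 : 0 ≤ x ^ (-(1 / 12 : ℝ)) := Real.rpow_nonneg hx0.le _
  rw [devStar_eq hA hx]
  have h6 : Real.log x * -DvR (nQ a b) (alQ a b) ρ A x - Real.log x * (Real.log A +
      Real.log (bsdStar a b x) - ρ * (Real.eulerMascheroniConstant + Real.log (Real.log x))) =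
      -(Real.log x * (Real.log (bsdStar a b x) + Pool.Agent.TH270.MS.Pl (nQ a b) (alQ a b) x)) := by
    unfold DvR
    ring
  rw [h6, norm_neg, norm_mul, Real.norm_eq_abs, Real.norm_eq_abs, abs_of_nonneg (by linarith)]
  calc Real.log x * _ ≤ Real.log x * (|K| * x ^ (-(1 / 12 : ℝ))) :=
        mul_le_mul_of_nonneg_left ((hK x hx).trans
          (mul_le_mul_of_nonneg_right (le_abs_self K) h5)) (by linarith)
    _ = _ := by ring

theorem bm_devStar (a b : ℤ) {ρ A : ℝ} (hA : 0 < A) : BM (devStar a b ρ A) :=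
  Pool.Agent.TH270.MS.EQ.BM.congr (((BM.const (Real.log A)).add (bm_star a b)).sub
    ((BM.const ρ).mul ((BM.const Real.eulerMascheroniConstant).add BM.loglog)))
    fun _ hx => (devStar_eq hA hx).symm

/-- **The leading-term formula over `ℚ` in exact mean square.** -/
theorem result (a b : ℤ) (hΔ : 4 * a ^ 3 + 27 * b ^ 2 ≠ 0) (F : ℂ → ℂ) (hF : IsLSeries a b F)
    (N : ℕ) [NeZero N] (f : CuspForm (Gamma0 N : Subgroup (GL (Fin 2) ℝ)) 2)
    (hf : IsNewformOf a b N f) (ρ A : ℝ) (hA : 0 < A) :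
    (List.TFAE [LeadingRH F ρ A, BoundedMeanSquare (devStar a b ρ A),
      SquareLaw F (devStar a b ρ A)] ∧ (LeadingRH F ρ A → ReadsZeros F (devStar a b ρ A))) ∧
    (Tendsto (fun x : ℝ => Real.log x * (squares a b x + Real.log 2 / 2)) atTop (𝓝 0) →
      List.TFAE [LeadingRH F ρ A, BoundedMeanSquare (dev a b ρ A), SquareLaw F (dev a b ρ A)] ∧
        (LeadingRH F ρ A → ReadsZeros F (dev a b ρ A))) := by
  obtain ⟨C₀, κ, hg⟩ := growth_F hΔ hF (hecke hf) fun p hp => hf.points p hp
  have H := curve_mc hF (by norm_num : (0 : ℝ) < 1 / 8) hg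
  have hmu : ∀ t : ℝ, Pool.Agent.Q5.BP.mu (fun s => F (1 + s)) t = mult F t :=
    Pool.Agent.Q5.BP.mu_shift F 1
  have hz : (∀ s : ℂ, 0 < s.re → F (1 + s) ≠ 0) ↔ NoZeros F := by
    refine ⟨fun h s hs => ?_, fun h s hs => h _ (by simpa using hs)⟩
    have := h (s - 1) (by simpa using hs)
    rwa [add_sub_cancel] at this
  have hAc : (A : ℂ) ≠ 0 := by exact_mod_cast hA.ne'
  have lead : LeadingRH F ρ A ↔ ((∀ s : ℂ, 0 < s.re → F (1 + s) ≠ 0) ∧
      ∃ m : ℤ, ρ = m ∧ Tendsto (fun s => F (1 + s) / s ^ m) (𝓝[≠] 0) (𝓝 (A : ℂ))) := by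
    rw [hz]
    refine and_congr_right fun _ => ?_
    constructor
    · rintro ⟨r, h1, h2, h3⟩
      refine ⟨r, by exact_mod_cast h1, ?_⟩
      simp only [zpow_natCast]
      exact (lim_iff hF hAc).2 ⟨h2, h3⟩
    · rintro ⟨m, h1, h2⟩
      obtain ⟨n, hn⟩ := Pool.Agent.W189.ML.order_finite_all hF 1
      obtain ⟨h3, h4⟩ := Pool.Agent.TH270.MS.EQ.coeff_lim hF.1 hn
      have h5 : m = n := by
        -- both limits are nonzero
        have h6 := h4.div h2 hAc
        have h7 : Tendsto (fun s : ℂ => s ^ (m - n)) (𝓝[≠] 0)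
            (𝓝 (iteratedDeriv n F 1 / (n.factorial : ℂ) / A)) := by
          refine h6.congr' ?_
          have hne : ∀ᶠ s : ℂ in 𝓝[≠] 0, F (1 + s) / s ^ m ≠ 0 := h2.eventually_ne hAc
          filter_upwards [self_mem_nhdsWithin, hne] with s hs hs2
          have hs0 : s ≠ 0 := hs
          have hs3 : F (1 + s) ≠ 0 := fun h => hs2 (by rw [h, zero_div])
          rw [Pi.div_apply, zpow_sub₀ hs0, zpow_natCast]
          field_simp
        have h8 : iteratedDeriv n F 1 / (n.factorial : ℂ) / A ≠ 0 := div_ne_zero h3 hAc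
        have hx0 : Tendsto (fun s : ℂ => s) (𝓝[≠] 0) (𝓝 0) := nhdsWithin_le_nhds
        rcases lt_trichotomy (m - n) 0 with hlt | heq | hgt
        · exfalso
          obtain ⟨j, hj⟩ : ∃ j : ℕ, m - n = -((j : ℤ) + 1) := ⟨(-(m - n) - 1).toNat, by omega⟩
          have h9 := h7.mul (hx0.pow (j + 1))
          rw [zero_pow (by omega), mul_zero] at h9
          have h10 : Tendsto (fun _ : ℂ => (1 : ℂ)) (𝓝[≠] (0 : ℂ)) (𝓝 0) := by
            refine h9.congr' ?_
            filter_upwards [self_mem_nhdsWithin] with x hx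
            have hxc : x ≠ 0 := hx
            rw [hj, zpow_neg]
            have : x ^ ((j : ℤ) + 1) = x ^ (j + 1) := by
              rw [← zpow_natCast]
              push_cast
              rfl
            rw [this]
            field_simp
          exact one_ne_zero (tendsto_nhds_unique tendsto_const_nhds h10)
        · omega
        · exfalso
          obtain ⟨j, hj⟩ : ∃ j : ℕ, m - n = (j : ℤ) + 1 := ⟨((m - n) - 1).toNat, by omega⟩
          have h9 := hx0.pow (j + 1)
          rw [zero_pow (by omega)] at h9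
          have h10 : Tendsto (fun s : ℂ => s ^ (m - n)) (𝓝[≠] 0) (𝓝 0) := by
            refine h9.congr' ?_
            filter_upwards [self_mem_nhdsWithin] with x hx
            rw [hj, ← zpow_natCast]
            push_cast
            rfl
          exact h8 (tendsto_nhds_unique h7 h10)
      rw [h5] at h1 h2
      simp only [zpow_natCast] at h2
      obtain ⟨h6, h7⟩ := (lim_iff hF hAc).1 h2
      exact ⟨n, by exact_mod_cast h1, h6, h7⟩
  refine ⟨?_, fun hc => ?_⟩
  · obtain ⟨t, hr⟩ := pack H ρ hA lead hmu (f := fun y => -DvR (nQ a b) (alQ a b) ρ A y)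
      fun y _ => rfl
    have b1 : BM fun y => Real.log y * -DvR (nQ a b) (alQ a b) ρ A y :=
      bm_log.mul (Pool.Agent.Q5.MS.bm_dvR H ρ A).neg
    have b2 : BM fun y => Real.log y * devStar a b ρ A y := bm_log.mul (bm_devStar a b hA)
    have hcl := star_tendsto a b (ρ := ρ) hA
    refine ⟨?_, fun h t' => ?_⟩
    · tfae_have 1 ↔ 2 := (t.out 0 1).trans (bsq_iff b1 b2 hcl)
      tfae_have 1 ↔ 3 := (t.out 0 2).trans
        (exists_congr fun V => and_congr_right fun _ => sqm_iff b1 b2 hcl)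
      tfae_finish
    · exact cmean_of b1 b2 hcl t' (hr h t')
  · have hc' : Tendsto (fun y : ℝ => Real.log y * (Sq (nQ a b) (alQ a b) y -
        -(Real.log 2 / 2))) atTop (𝓝 0) := by
      refine hc.congr fun x => ?_
      rw [squares_eq]
      ring
    exact packP H ρ hA lead hmu hc' fun y hy => dev_eq hA hy

end Pool.Agent.Results.MP_92892c_nt.ExactMeanSquareRational
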